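import Mathlib


namespace Pool.Agent.Results.MP_c5669f_al.ModularDerivation

section Ring

open Polynomial

variable {k : Type*} [Field k] {p : ℕ} [hp : Fact p.Prime] [CharP k p]

theorem ad_iter {B : Type*} [Ring B] [Algebra k B] [Nontrivial B] (x y : B) :
    (fun y : B => x * y - y * x)^[p] y = x ^ p * y - y * x ^ p := by
  have : CharP (Module.End k B) p :=
    charP_of_injective_algebraMap (algebraMap k (Module.End k B)).injective p
  have h1 : (LinearMap.mulLeft k x - LinearMap.mulRight k x) ^ p
      = LinearMap.mulLeft k (x ^ p) - LinearMap.mulRight k (x ^ p) := by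
    rw [sub_pow_char_of_commute p (LinearMap.commute_mulLeft_right (R := k) x x),
      LinearMap.pow_mulLeft, LinearMap.pow_mulRight]
  have h2 : ∀ n : ℕ, ((LinearMap.mulLeft k x - LinearMap.mulRight k x) ^ n) y
      = (fun y : B => x * y - y * x)^[n] y := by
    intro n
    rw [Module.End.pow_apply]
    rfl
  rw [← h2 p, h1]
  simp

variable {A : Type*} [Ring A] [Algebra k A]

theorem deriv_pow {p : ℕ} [hp : Fact p.Prime] (k : Type*) [Field k] [CharP k p] {A : Type*} [Ring A]
    [Algebra k A] [Nontrivial A] (z : A[X]) :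
    derivative (z ^ p) = (fun y : A[X] => z * y - y * z)^[p - 1] (derivative z) := by
  let δ : Module.End k A[X] := (derivative (R := A)).restrictScalars k
  let L : A[X] → Module.End k A[X] := fun w => LinearMap.mulLeft k w
  have h0 := ad_iter (k := k) (p := p) (L z) δ
  have hstep : ∀ n : ℕ, ∀ w : A[X],
      (fun y : Module.End k A[X] => L z * y - y * L z)^[n] (-(L w))
        = -(L ((fun y : A[X] => z * y - y * z)^[n] w)) := by
    intro n
    induction n with
    | zero => intro w; rfl
    | succ n ih =>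
      intro w
      rw [Function.iterate_succ_apply, Function.iterate_succ_apply]
      have : (L z * -(L w) - -(L w) * L z) = -(L (z * w - w * z)) := by
        ext1 v
        simp only [L, Module.End.mul_apply, LinearMap.sub_apply, LinearMap.neg_apply,
          LinearMap.mulLeft_apply]
        noncomm_ring
      rw [this]
      exact ih _
  have hfirst : L z * δ - δ * L z = -(L (derivative z)) := by
    apply LinearMap.ext
    intro v
    simp only [L, δ, Module.End.mul_apply, LinearMap.sub_apply, LinearMap.neg_apply,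
      LinearMap.mulLeft_apply, LinearMap.restrictScalars_apply, derivative_mul]
    abel
  have hp1 : p = (p - 1) + 1 := (Nat.succ_pred_eq_of_pos hp.out.pos).symm
  have h3 : (fun y : Module.End k A[X] => L z * y - y * L z)^[p] δ
      = -(L ((fun y : A[X] => z * y - y * z)^[p - 1] (derivative z))) := by
    conv_lhs => rw [hp1]
    rw [Function.iterate_succ_apply]
    rw [hfirst, hstep]
  rw [h3] at h0
  have h4 := congrArg (fun T : Module.End k A[X] => T 1) h0
  have h5 : L z ^ p = L (z ^ p) := by simp only [L, LinearMap.pow_mulLeft]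
  rw [h5] at h4
  simp only [L, δ, Module.End.mul_apply, LinearMap.sub_apply, LinearMap.neg_apply,
      LinearMap.mulLeft_apply, LinearMap.restrictScalars_apply, mul_one, derivative_one, mul_zero,
      zero_sub, neg_inj] at h4
  exact h4.symm

theorem coeff_mem [Nontrivial A] (LL : Submodule k A) (hL : ∀ x ∈ LL, ∀ y ∈ LL, x * y - y * x ∈ LL)
    {a b : A} (ha : a ∈ LL) (hb : b ∈ LL) (i : ℕ) (h0 : 0 < i) (h1 : i < p) :
    ((C a + C b * X : A[X]) ^ p).coeff i ∈ LL := by
  obtain ⟨j, rfl⟩ : ∃ j, i = j + 1 := ⟨i - 1, by omega⟩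
  have key : ∀ n : ℕ, ∀ w : A[X], (∀ i, w.coeff i ∈ LL) → ∀ i,
      ((fun y : A[X] => (C a + C b * X) * y - y * (C a + C b * X))^[n] w).coeff i ∈ LL := by
    intro n
    induction n with
    | zero => intro w hw; exact hw
    | succ n ih =>
      intro w hw
      rw [Function.iterate_succ_apply]
      apply ih
      intro i
      have e1 : (C a + C b * X) * w - w * (C a + C b * X)
          = (C a * w - w * C a) + (C b * w - w * C b) * X := by
        have : C b * X * w = C b * w * X := by rw [mul_assoc, X_mul, mul_assoc]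
        rw [add_mul, mul_add, this, sub_mul, mul_assoc w]
        abel
      rw [e1, coeff_add, coeff_sub, coeff_C_mul, coeff_mul_C]
      apply LL.add_mem (hL a ha _ (hw i))
      cases i with
      | zero => simp
      | succ i =>
        rw [coeff_mul_X, coeff_sub, coeff_C_mul, coeff_mul_C]
        exact hL b hb _ (hw i)
  have hd := deriv_pow k (p := p) (C a + C b * X : A[X])
  have h2 : (derivative ((C a + C b * X : A[X]) ^ p)).coeff j ∈ LL := by
    rw [hd]
    apply key
    intro i
    simp only [derivative_add, derivative_C, zero_add, derivative_C_mul_X]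
    rw [coeff_C]
    split_ifs
    · exact hb
    · exact LL.zero_mem
  rw [coeff_derivative] at h2
  have hne : ((j + 1 : ℕ) : k) ≠ 0 := by
    intro h
    rw [CharP.cast_eq_zero_iff k p] at h
    exact absurd (Nat.le_of_dvd (by omega) h) (by omega)
  have h3 := LL.smul_mem (((j + 1 : ℕ) : k)⁻¹) h2
  have h4 : (((j + 1 : ℕ) : k)⁻¹) • (((C a + C b * X : A[X]) ^ p).coeff (j + 1) * ((j : A) + 1))
      = ((C a + C b * X : A[X]) ^ p).coeff (j + 1) := by
    have : ((j : A) + 1) = algebraMap k A ((j + 1 : ℕ) : k) := by simp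
    rw [this, ← Algebra.commutes, ← Algebra.smul_def, smul_smul, inv_mul_cancel₀ hne, one_smul]
  rwa [h4] at h3

theorem lin_pow (a b : A) (m : ℕ) :
    ((C a + C b * X : A[X]) ^ m).natDegree ≤ m ∧ ((C a + C b * X : A[X]) ^ m).coeff 0 = a ^ m ∧
      ((C a + C b * X : A[X]) ^ m).coeff m = b ^ m := by
  induction m with
  | zero => simp
  | succ m ih =>
    obtain ⟨h1, h2, h3⟩ := ih
    have e : (C a + C b * X : A[X]) ^ (m + 1)
        = C a * (C a + C b * X : A[X]) ^ m + C b * (C a + C b * X : A[X]) ^ m * X := by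
      rw [pow_succ', add_mul, mul_assoc (C b), X_mul, mul_assoc]
    have hc : ((C a + C b * X : A[X]) ^ m).coeff (m + 1) = 0 :=
      coeff_eq_zero_of_natDegree_lt (by omega)
    refine ⟨?_, ?_, ?_⟩
    · rw [natDegree_le_iff_coeff_eq_zero]
      intro N hN
      obtain ⟨N', rfl⟩ : ∃ N', N = N' + 1 := ⟨N - 1, by omega⟩
      rw [e, coeff_add, coeff_C_mul, coeff_mul_X, coeff_C_mul,
        coeff_eq_zero_of_natDegree_lt (show _ < N' + 1 by omega),
        coeff_eq_zero_of_natDegree_lt (show _ < N' by omega)]
      simp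
    · rw [e, coeff_add, coeff_C_mul, h2]
      simp [pow_succ']
    · rw [e, coeff_add, coeff_C_mul, coeff_mul_X, coeff_C_mul, hc, h3]
      simp [pow_succ']

theorem add_pow_mem [Nontrivial A] (LL : Submodule k A) (hL : ∀ x ∈ LL, ∀ y ∈ LL, x * y - y * x ∈ LL)
    {a b : A} (ha : a ∈ LL) (hb : b ∈ LL) (hap : a ^ p ∈ LL) (hbp : b ^ p ∈ LL) :
    (a + b) ^ p ∈ LL := by
  obtain ⟨h1, h2, h3⟩ := lin_pow a b p
  have hev : ∀ m : ℕ, ((C a + C b * X : A[X]) ^ m).eval 1 = (a + b) ^ m := by
    intro m
    induction m with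
    | zero => simp
    | succ m ih =>
      rw [pow_succ', add_mul, mul_assoc (C b), X_mul, eval_add, eval_C_mul, eval_C_mul, eval_mul_X,
        ih, mul_one, pow_succ', add_mul]
  rw [← hev p, eval_eq_sum_range' (show _ < p + 1 by omega)]
  apply LL.sum_mem
  intro i hi
  rw [one_pow, mul_one]
  rw [Finset.mem_range] at hi
  rcases Nat.eq_zero_or_pos i with h | h
  · rw [h, h2]; exact hap
  · rcases Nat.lt_or_ge i p with h' | h'
    · exact coeff_mem LL hL ha hb i h h'
    · have : i = p := by omega
      rw [this, h3]; exact hbp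

theorem mul_pow_mem [Nontrivial A] (LL : Submodule k A) (hL : ∀ x ∈ LL, ∀ y ∈ LL, x * y - y * x ∈ LL)
    {c x : A} (hc : ∀ y ∈ LL, c * y ∈ LL) (hx : x ∈ LL) (hxp : x ^ p ∈ LL) :
    (c * x) ^ p ∈ LL := by
  obtain ⟨h1, h2, h3⟩ := lin_pow (c * x) x p
  have hcp : ∀ (i : ℕ) (y : A), y ∈ LL → (-c) ^ i * y ∈ LL := by
    intro i
    induction i with
    | zero => intro y hy; simpa using hy
    | succ i ih =>
      intro y hy
      rw [pow_succ, mul_assoc]
      apply ih
      rw [neg_mul]
      exact LL.neg_mem (hc y hy)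
  have hp1 : p = (p - 1) + 1 := (Nat.succ_pred_eq_of_pos hp.out.pos).symm
  obtain ⟨q, hq⟩ : ∃ q, p = q + 1 := ⟨p - 1, hp1⟩
  have hsum : ∑ i ∈ Finset.range (p + 1), (-c) ^ i * ((C (c * x) + C x * X : A[X]) ^ p).coeff i
      = 0 := by
    have e : (C (c * x) + C x * X : A[X]) ^ p
        = C (c * x) * (C (c * x) + C x * X : A[X]) ^ q
          + C x * (C (c * x) + C x * X : A[X]) ^ q * X := by
      rw [hq, pow_succ', add_mul, mul_assoc (C x), X_mul, mul_assoc]
    rw [e]
    simp only [coeff_add, mul_add, Finset.sum_add_distrib, coeff_C_mul]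
    obtain ⟨g1, -, -⟩ := lin_pow (c * x) x q
    rw [Finset.sum_range_succ, coeff_eq_zero_of_natDegree_lt (show _ < p by omega)]
    rw [Finset.sum_range_succ' _ p]
    simp only [coeff_mul_X, coeff_C_mul, mul_coeff_zero, coeff_X_zero, mul_zero, add_zero]
    rw [← Finset.sum_add_distrib]
    apply Finset.sum_eq_zero
    intro i _
    rw [pow_succ]
    noncomm_ring
  rw [Finset.sum_range_succ'] at hsum
  rw [h2] at hsum
  rw [pow_zero, one_mul] at hsum
  have h5 := (neg_eq_of_add_eq_zero_right hsum).symm
  rw [h5]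
  apply LL.neg_mem
  apply LL.sum_mem
  intro i hi
  rw [Finset.mem_range] at hi
  apply hcp
  rcases Nat.lt_or_ge (i + 1) p with h' | h'
  · exact coeff_mem LL hL (hc x hx) hx (i + 1) (by omega) h'
  · have : i + 1 = p := by omega
    rw [this, h3]; exact hxp


end Ring


section Tr

open Matrix

theorem trace_sym_alt {K : Type*} [Field K] {n : ℕ} (T S : Matrix (Fin n) (Fin n) K)
    (hT : Tᵀ = -T) (hT0 : ∀ i, T i i = 0) (hS : Sᵀ = S) : (T * S).trace = 0 := by
  have h : (T * S).trace = ∑ i, ∑ j, T i j * S j i := by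
    simp [Matrix.trace, Matrix.mul_apply]
  rw [h, ← Finset.sum_product']
  apply Finset.sum_involution (fun q _ => (q.2, q.1))
  · rintro ⟨i, j⟩ -
    have h1 : T j i = - T i j := by
      have := congrFun (congrFun hT i) j
      simpa using this
    have h2 : S i j = S j i := by
      have := congrFun (congrFun hS j) i
      simpa using this
    simp only [h1, h2]
    ring
  · rintro ⟨i, j⟩ - h0 h1
    simp only [Prod.mk.injEq] at h1
    apply h0
    obtain ⟨rfl, -⟩ := h1
    simp [hT0]
  · intro q hq
    simp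
  · intro q hq
    rfl

theorem exists_ginv {K : Type*} [Field K] {n : ℕ} (Q : Matrix (Fin n) (Fin n) K) :
    ∃ H : Matrix (Fin n) (Fin n) K, Q * H * Q = Q := by
  let f : (Fin n → K) →ₗ[K] (Fin n → K) := Matrix.toLin' Q
  obtain ⟨s, hs⟩ := f.rangeRestrict.exists_rightInverse_of_surjective f.range_rangeRestrict
  obtain ⟨g, hg⟩ := s.exists_extend
  refine ⟨LinearMap.toMatrix' g, ?_⟩
  apply Matrix.toLin'.injective
  rw [Matrix.toLin'_mul, Matrix.toLin'_mul, Matrix.toLin'_toMatrix']
  apply LinearMap.ext
  intro v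
  have h1 : g (f v) = s (f.rangeRestrict v) := by
    have := congrArg (fun t => t (f.rangeRestrict v)) hg
    exact this
  have h2 : f.rangeRestrict (s (f.rangeRestrict v)) = f.rangeRestrict v := by
    have := congrArg (fun t => t (f.rangeRestrict v)) hs
    exact this
  have h3 := congrArg Subtype.val h2
  change f (g (f v)) = f v
  rw [h1]
  exact h3

theorem trace_zero {K : Type*} [Field K] {n : ℕ} (Q M W : Matrix (Fin n) (Fin n) K)
    (hQ : Qᵀ = -Q) (hQ0 : ∀ i, Q i i = 0) (hS : (Q * M)ᵀ = Q * M) (hM : M * M = W * Q) :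
    M.trace = 0 := by
  obtain ⟨H, hH⟩ := exists_ginv Q
  set T : Matrix (Fin n) (Fin n) K := -(H * Q * Hᵀ) with hTdef
  have hT1 : Tᵀ = -T := by
    rw [hTdef]
    simp [Matrix.transpose_mul, hQ, Matrix.mul_assoc]
  have hT0 : ∀ i, T i i = 0 := by
    intro i
    have h1 : (H * Q * Hᵀ) i i = (Q * (Matrix.of fun a b => H i b * H i a)).trace := by
      simp only [Matrix.mul_apply, Matrix.trace, Matrix.diag, Matrix.transpose_apply, Matrix.of_apply,
        Finset.sum_mul]
      rw [Finset.sum_comm]
      apply Finset.sum_congr rfl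
      intro a _
      apply Finset.sum_congr rfl
      intro b _
      ring
    rw [hTdef, Matrix.neg_apply, h1, trace_sym_alt Q _ hQ hQ0 (by
      ext a b
      simp [mul_comm]), neg_zero]
  have hQT : Q * T * Q = Q := by
    have h1 : Q * Hᵀ * Q = -Q := by
      have h2 := congrArg Matrix.transpose hH
      simp only [Matrix.transpose_mul, hQ] at h2
      rw [Matrix.mul_assoc]
      simpa [Matrix.mul_assoc] using h2
    calc Q * T * Q = -((Q * H * Q) * Hᵀ * Q) := by
          rw [hTdef]; simp only [Matrix.mul_neg, Matrix.neg_mul, Matrix.mul_assoc]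
      _ = -(Q * Hᵀ * Q) := by rw [hH]
      _ = Q := by rw [h1, neg_neg]
  have hQe : Q * (1 - T * Q) = 0 := by
    rw [Matrix.mul_sub, Matrix.mul_one, ← Matrix.mul_assoc, hQT, sub_self]
  have hQM : Q * M = -(Mᵀ * Q) := by
    rw [← hS, Matrix.transpose_mul, hQ, Matrix.mul_neg]
  have hnil : (M * (1 - T * Q)) * (M * (1 - T * Q)) = 0 := by
    have e : (M * (1 - T * Q)) * (M * (1 - T * Q))
        = (M * M) * (1 - T * Q) - M * T * (Q * M) * (1 - T * Q) := by
      noncomm_ring
    rw [e, hM, hQM]
    have e2 : W * Q * (1 - T * Q) = W * (Q * (1 - T * Q)) := by rw [Matrix.mul_assoc]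
    have e3 : M * T * -(Mᵀ * Q) * (1 - T * Q) = -(M * T * Mᵀ * (Q * (1 - T * Q))) := by
      noncomm_ring
    rw [e2, e3, hQe]
    simp
  have htr : (M * (1 - T * Q)).trace = 0 := by
    have : IsNilpotent (M * (1 - T * Q)) := ⟨2, by rw [pow_two]; exact hnil⟩
    exact (Matrix.isNilpotent_trace_of_isNilpotent this).eq_zero
  have h1 : M = M * (1 - T * Q) + M * T * Q := by noncomm_ring
  rw [h1, Matrix.trace_add, htr, zero_add, Matrix.mul_assoc, Matrix.trace_mul_comm,
    Matrix.mul_assoc]
  exact trace_sym_alt T (Q * M) hT1 hT0 hS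


end Tr

theorem ring_jac {R : Type*} [Ring R] (a b c : R) : (a * b - b * a) * c - c * (a * b - b * a)
    = (a * (b * c - c * b) - (b * c - c * b) * a) - (b * (a * c - c * a) - (a * c - c * a) * b) := by
  noncomm_ring

section Der

variable {k : Type*} [Field k] {p : ℕ} [hp : Fact p.Prime] [CharP k p] {n : ℕ}

/-- A linear endomorphism satisfying the Leibniz rule. -/
def IsDer (S : Module.End k (MvPolynomial (Fin n) k)) : Prop :=
  ∀ f g, S (f * g) = S f * g + f * S g

theorem IsDer.formula {S : Module.End k (MvPolynomial (Fin n) k)} (hS : IsDer S)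
    (f : MvPolynomial (Fin n) k) :
    S f = ∑ i, MvPolynomial.pderiv i f * S (MvPolynomial.X i) := by
  have h1 : S 1 = 0 := by
    have := hS 1 1
    simp only [mul_one, one_mul] at this
    simpa using this
  induction f using MvPolynomial.induction_on with
  | C a =>
    have : (MvPolynomial.C a : MvPolynomial (Fin n) k) = a • 1 := by
      rw [MvPolynomial.smul_eq_C_mul, mul_one]
    rw [this, map_smul, h1]
    simp
  | add f g hf hg =>
    rw [map_add, hf, hg, ← Finset.sum_add_distrib]
    apply Finset.sum_congr rfl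
    intro i _
    rw [map_add, add_mul]
  | mul_X f j hf =>
    rw [hS, hf, Finset.sum_mul]
    have e : f * S (MvPolynomial.X j)
        = ∑ i, f * MvPolynomial.pderiv i (MvPolynomial.X j) * S (MvPolynomial.X i) := by
      rw [Finset.sum_eq_single j]
      · simp
      · intro b _ hb
        simp [MvPolynomial.pderiv_X, hb.symm]
      · intro h; exact absurd (Finset.mem_univ _) h
    rw [e, ← Finset.sum_add_distrib]
    apply Finset.sum_congr rfl
    intro i _
    rw [Derivation.leibniz, smul_eq_mul, smul_eq_mul]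
    ring

/-- The divergence of an endomorphism. -/
noncomputable def dv (S : Module.End k (MvPolynomial (Fin n) k)) : MvPolynomial (Fin n) k :=
  ∑ i, MvPolynomial.pderiv i (S (MvPolynomial.X i))

/-- The operator `S + div S`. -/
noncomputable def XX (S : Module.End k (MvPolynomial (Fin n) k)) : Module.End k (MvPolynomial (Fin n) k) :=
  S + LinearMap.mulLeft k (dv S)

theorem XX_apply (S : Module.End k (MvPolynomial (Fin n) k)) (f : MvPolynomial (Fin n) k) :
    XX S f = S f + dv S * f := rfl

/-- Being a divergence. -/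
def IsDiv (f : MvPolynomial (Fin n) k) : Prop :=
  ∃ h : Fin n → MvPolynomial (Fin n) k, f = ∑ i, MvPolynomial.pderiv i (h i)

theorem IsDiv.sub {f g : MvPolynomial (Fin n) k} (hf : IsDiv f) (hg : IsDiv g) :
    IsDiv (f - g) := by
  obtain ⟨a, rfl⟩ := hf
  obtain ⟨b, rfl⟩ := hg
  exact ⟨fun i => a i - b i, by simp [Finset.sum_sub_distrib]⟩

theorem IsDer.XX_div {S : Module.End k (MvPolynomial (Fin n) k)} (hS : IsDer S)
    (f : MvPolynomial (Fin n) k) : IsDiv (XX S f) := by
  refine ⟨fun i => f * S (MvPolynomial.X i), ?_⟩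
  rw [XX_apply, hS.formula f, dv, Finset.sum_mul, ← Finset.sum_add_distrib]
  apply Finset.sum_congr rfl
  intro i _
  rw [Derivation.leibniz, smul_eq_mul, smul_eq_mul]
  ring

omit hp in
theorem coeff_pderiv_zero (i : Fin n) (b : Fin n →₀ ℕ) (hb : p ∣ b i + 1)
    (h : MvPolynomial (Fin n) k) : (MvPolynomial.pderiv i h).coeff b = 0 := by
  induction h using MvPolynomial.induction_on' with
  | monomial s a =>
    rw [MvPolynomial.pderiv_monomial, MvPolynomial.coeff_monomial]
    split_ifs with hs
    · rcases Nat.eq_zero_or_pos (s i) with h0 | h0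
      · simp [h0]
      · have h1 : s i = b i + 1 := by
          rw [← hs, Finsupp.tsub_apply, Finsupp.single_eq_same]
          omega
        rw [h1, (CharP.cast_eq_zero_iff k p _).mpr hb, mul_zero]
    · rfl
  | add f g hf hg =>
    rw [map_add, MvPolynomial.coeff_add, hf, hg, add_zero]

include p in
theorem no_mass (c : MvPolynomial (Fin n) k) (h : ∀ f, IsDiv (f * c)) : c = 0 := by
  by_contra hc
  obtain ⟨s, hs⟩ := MvPolynomial.support_nonempty.mpr hc
  rw [MvPolynomial.mem_support_iff] at hs
  let t : Fin n →₀ ℕ := Finsupp.equivFunOnFinite.symm (fun i => (p - 1) * (s i + 1))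
  obtain ⟨u, hu⟩ := h (MvPolynomial.monomial t 1)
  have h1 := congrArg (MvPolynomial.coeff (s + t)) hu
  rw [mul_comm, MvPolynomial.coeff_mul_monomial, mul_one, MvPolynomial.coeff_sum] at h1
  rw [Finset.sum_eq_zero] at h1
  · exact hs h1
  · intro i _
    apply coeff_pderiv_zero (p := p)
    refine ⟨s i + 1, ?_⟩
    have hp1 : 1 ≤ p := hp.out.one_le
    have : (s + t) i = s i + (p - 1) * (s i + 1) := rfl
    rw [this]
    obtain ⟨q, hq⟩ : ∃ q, p = q + 1 := ⟨p - 1, by omega⟩
    rw [hq, Nat.add_sub_cancel]
    ring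

include p in
theorem uniq {T D : Module.End k (MvPolynomial (Fin n) k)}
    (hT : ∀ f, T * LinearMap.mulLeft k f - LinearMap.mulLeft k f * T = LinearMap.mulLeft k (D f))
    (hdiv : ∀ f, IsDiv (T f)) (hD : IsDer D) : T = XX D := by
  have h1 : ∀ f, T f = D f + f * T 1 := by
    intro f
    have := congrArg (fun U : Module.End k _ => U 1) (hT f)
    simp only [LinearMap.sub_apply, Module.End.mul_apply, LinearMap.mulLeft_apply, mul_one] at this
    rw [← this]; ring
  have h2 : T 1 - dv D = 0 := by
    apply no_mass (p := p)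
    intro f
    have e : f * (T 1 - dv D) = T f - XX D f := by
      rw [h1 f, XX_apply]; ring
    rw [e]
    exact (hdiv f).sub (hD.XX_div f)
  apply LinearMap.ext
  intro f
  rw [h1 f, XX_apply, sub_eq_zero.mp h2, mul_comm]

theorem IsDer.com {S : Module.End k (MvPolynomial (Fin n) k)} (hS : IsDer S)
    (f : MvPolynomial (Fin n) k) :
    S * LinearMap.mulLeft k f - LinearMap.mulLeft k f * S = LinearMap.mulLeft k (S f) := by
  apply LinearMap.ext
  intro g
  simp only [LinearMap.sub_apply, Module.End.mul_apply, LinearMap.mulLeft_apply]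
  rw [hS]; ring

theorem isDer_of_com {S : Module.End k (MvPolynomial (Fin n) k)}
    (h : ∀ f, S * LinearMap.mulLeft k f - LinearMap.mulLeft k f * S = LinearMap.mulLeft k (S f)) :
    IsDer S := by
  intro f g
  have := congrArg (fun U : Module.End k _ => U g) (h f)
  simp only [LinearMap.sub_apply, Module.End.mul_apply, LinearMap.mulLeft_apply] at this
  rw [← this]; ring

theorem IsDer.com_XX {S : Module.End k (MvPolynomial (Fin n) k)} (hS : IsDer S)
    (f : MvPolynomial (Fin n) k) :
    XX S * LinearMap.mulLeft k f - LinearMap.mulLeft k f * XX S = LinearMap.mulLeft k (S f) := by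
  rw [← hS.com f]
  apply LinearMap.ext
  intro g
  simp only [XX, LinearMap.sub_apply, LinearMap.add_apply, Module.End.mul_apply,
    LinearMap.mulLeft_apply]
  ring

theorem com_pow {T D : Module.End k (MvPolynomial (Fin n) k)}
    (hT : ∀ f, T * LinearMap.mulLeft k f - LinearMap.mulLeft k f * T = LinearMap.mulLeft k (D f))
    (f : MvPolynomial (Fin n) k) :
    T ^ p * LinearMap.mulLeft k f - LinearMap.mulLeft k f * T ^ p
      = LinearMap.mulLeft k ((D ^ p) f) := by
  rw [← ad_iter (k := k) (p := p)]
  have : ∀ j : ℕ, ∀ f, (fun y : Module.End k (MvPolynomial (Fin n) k) => T * y - y * T)^[j]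
      (LinearMap.mulLeft k f) = LinearMap.mulLeft k ((D ^ j) f) := by
    intro j
    induction j with
    | zero => intro f; rfl
    | succ j ih =>
      intro f
      rw [Function.iterate_succ_apply]
      change (fun y : Module.End k (MvPolynomial (Fin n) k) => T * y - y * T)^[j]
        (T * LinearMap.mulLeft k f - LinearMap.mulLeft k f * T) = _
      rw [hT f, ih, pow_succ]
      rfl
  exact this p f

include p in
theorem IsDer.pow_p {S : Module.End k (MvPolynomial (Fin n) k)} (hS : IsDer S) :
    IsDer (S ^ p) :=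
  isDer_of_com (fun f => com_pow hS.com f)

theorem IsDer.XX_pow {S : Module.End k (MvPolynomial (Fin n) k)} (hS : IsDer S) :
    XX S ^ p = XX (S ^ p) := by
  apply uniq (p := p)
  · intro f
    exact com_pow hS.com_XX f
  · intro f
    obtain ⟨q, hq⟩ : ∃ q, p = q + 1 := ⟨p - 1, by have := hp.out.one_le; omega⟩
    rw [hq, pow_succ', Module.End.mul_apply]
    exact hS.XX_div _
  · exact hS.pow_p

theorem IsDer.lie {S T : Module.End k (MvPolynomial (Fin n) k)} (hS : IsDer S) (hT : IsDer T) :
    IsDer (S * T - T * S) := by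
  intro f g
  simp only [LinearMap.sub_apply, Module.End.mul_apply]
  rw [hT f g, hS f g, map_add, map_add, hS, hS, hT, hT]
  ring

include p in
theorem IsDer.XX_lie {S T : Module.End k (MvPolynomial (Fin n) k)} (hS : IsDer S) (hT : IsDer T) :
    XX S * XX T - XX T * XX S = XX (S * T - T * S) := by
  apply uniq (p := p)
  · intro f
    have h1 := hS.com_XX
    have h2 := hT.com_XX
    calc (XX S * XX T - XX T * XX S) * LinearMap.mulLeft k f
          - LinearMap.mulLeft k f * (XX S * XX T - XX T * XX S)
        = (XX S * (XX T * LinearMap.mulLeft k f - LinearMap.mulLeft k f * XX T)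
            - (XX T * LinearMap.mulLeft k f - LinearMap.mulLeft k f * XX T) * XX S)
          - (XX T * (XX S * LinearMap.mulLeft k f - LinearMap.mulLeft k f * XX S)
            - (XX S * LinearMap.mulLeft k f - LinearMap.mulLeft k f * XX S) * XX T) := by
          exact ring_jac _ _ _
      _ = LinearMap.mulLeft k ((S * T - T * S) f) := by
          rw [h1, h2, h1, h2]
          apply LinearMap.ext
          intro g
          simp only [LinearMap.sub_apply, Module.End.mul_apply, LinearMap.mulLeft_apply]
          ring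
  · intro f
    rw [LinearMap.sub_apply]
    exact (hS.XX_div _).sub (hT.XX_div _)
  · exact hS.lie hT

end Der

section Poisson

variable {k : Type*} [Field k] {p : ℕ} [hp : Fact p.Prime] [CharP k p] {n : ℕ}

/-- A Poisson bracket on the polynomial ring. -/
structure IsPB (br : MvPolynomial (Fin n) k →ₗ[k] MvPolynomial (Fin n) k →ₗ[k]
    MvPolynomial (Fin n) k) : Prop where
  alt : ∀ a, br a a = 0
  jac : ∀ a b c, br a (br b c) + br b (br c a) + br c (br a b) = 0
  leib : ∀ a b c, br a (b * c) = br a b * c + b * br a c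

variable {br : MvPolynomial (Fin n) k →ₗ[k] MvPolynomial (Fin n) k →ₗ[k] MvPolynomial (Fin n) k}

theorem IsPB.skew (h : IsPB br) (a b : MvPolynomial (Fin n) k) : br a b = - br b a := by
  have h1 := h.alt (a + b)
  rw [map_add, map_add, LinearMap.add_apply, LinearMap.add_apply, h.alt a, h.alt b] at h1
  rw [zero_add, add_zero] at h1
  rw [add_comm] at h1
  exact eq_neg_of_add_eq_zero_left h1

theorem IsPB.der (h : IsPB br) (a : MvPolynomial (Fin n) k) : IsDer (br a) := h.leib a

theorem IsPB.comm (h : IsPB br) (a b : MvPolynomial (Fin n) k) :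
    (br a : Module.End k (MvPolynomial (Fin n) k)) * br b - br b * br a = br (br a b) := by
  apply LinearMap.ext
  intro c
  have h1 := h.jac a b c
  change br a (br b c) - br b (br a c) = br (br a b) c
  rw [h.skew c (br a b), h.skew c a, map_neg] at h1
  linear_combination h1

/-- The Frobenius powers of the Hamiltonian derivations. -/
inductive SS (p : ℕ) (br : MvPolynomial (Fin n) k →ₗ[k] MvPolynomial (Fin n) k →ₗ[k]
    MvPolynomial (Fin n) k) : Module.End k (MvPolynomial (Fin n) k) → Prop
  | ham (a) : SS p br (br a)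
  | pow (S) (h : SS p br S) : SS p br (S ^ p)

theorem SS.der (h : IsPB br) {S : Module.End k (MvPolynomial (Fin n) k)} (hS : SS p br S) :
    IsDer S := by
  induction hS with
  | ham a => exact h.der a
  | pow S _ ih => exact ih.pow_p

theorem iter_br {S : Module.End k (MvPolynomial (Fin n) k)}
    (hS : ∀ b, S * br b - br b * S = br (S b)) (j : ℕ) : ∀ b,
      (fun y : Module.End k (MvPolynomial (Fin n) k) => S * y - y * S)^[j] (br b)
        = br ((S ^ j) b) := by
  induction j with
  | zero => intro b; rfl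
  | succ j ih =>
    intro b
    rw [Function.iterate_succ_apply]
    change (fun y : Module.End k (MvPolynomial (Fin n) k) => S * y - y * S)^[j]
      (S * br b - br b * S) = _
    rw [hS b, ih, pow_succ]
    rfl

theorem SS.pois (h : IsPB br) {S : Module.End k (MvPolynomial (Fin n) k)} (hS : SS p br S) :
    ∀ b, S * br b - br b * S = br (S b) := by
  induction hS with
  | ham a => intro b; exact h.comm a b
  | pow S _ ih =>
    intro b
    rw [← ad_iter (k := k) (p := p)]
    exact iter_br ih p b

theorem SS.lie (h : IsPB br) {S T : Module.End k (MvPolynomial (Fin n) k)} (hS : SS p br S)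
    (hT : SS p br T) : ∃ c, S * T - T * S = br c := by
  induction hS with
  | ham a =>
    refine ⟨-(T a), ?_⟩
    have := hT.pois h a
    rw [map_neg, ← this]
    abel
  | pow S hS ih =>
    obtain ⟨c, hc⟩ := ih
    obtain ⟨q, hq⟩ : ∃ q, p = q + 1 := ⟨p - 1, by have := hp.out.one_le; omega⟩
    refine ⟨(S ^ q) c, ?_⟩
    rw [← ad_iter (k := k) (p := p), ← iter_br (hS.pois h) q c]
    conv_lhs => rw [hq]
    rw [Function.iterate_succ_apply]
    change (fun y : Module.End k (MvPolynomial (Fin n) k) => S * y - y * S)^[q]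
      (S * T - T * S) = _
    rw [hc]

theorem star (h : IsPB br) {ι : Type*} [Fintype ι] (S : ι → Module.End k (MvPolynomial (Fin n) k))
    (hS : ∀ l, SS p br (S l)) (g : ι → MvPolynomial (Fin n) k)
    (hsum : ∀ f, ∑ l, g l * S l f = 0) : ∑ l, S l (g l) = 0 := by
  classical
  choose c hc using fun l l' => SS.lie h (hS l) (hS l')
  let Q : Matrix (Fin n) (Fin n) (MvPolynomial (Fin n) k) :=
    Matrix.of fun i j => br (MvPolynomial.X i) (MvPolynomial.X j)
  let M : Matrix (Fin n) (Fin n) (MvPolynomial (Fin n) k) :=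
    Matrix.of fun j i => ∑ l, MvPolynomial.pderiv j (g l) * S l (MvPolynomial.X i)
  let W : Matrix (Fin n) (Fin n) (MvPolynomial (Fin n) k) :=
    Matrix.of fun j b => -∑ l, ∑ l', MvPolynomial.pderiv j (g l) * g l' *
      MvPolynomial.pderiv b (c l l')
  have hQ : Q.transpose = -Q := by
    ext1 i j
    change br _ _ = -br _ _
    exact h.skew _ _
  have hQ0 : ∀ i, Q i i = 0 := fun i => h.alt _
  have hQM : ∀ i a, (Q * M) i a = -∑ l, g l * br (MvPolynomial.X i) (S l (MvPolynomial.X a)) := by
    intro i a
    have e1 : (Q * M) i a = ∑ l, br (MvPolynomial.X i) (g l) * S l (MvPolynomial.X a) := by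
      rw [Matrix.mul_apply]
      simp only [Q, M, Matrix.of_apply, Finset.mul_sum]
      rw [Finset.sum_comm]
      apply Finset.sum_congr rfl
      intro l _
      rw [(h.der (MvPolynomial.X i)).formula (g l), Finset.sum_mul]
      apply Finset.sum_congr rfl
      intro j _
      ring
    have e2 := congrArg (br (MvPolynomial.X i)) (hsum (MvPolynomial.X a))
    rw [map_sum, map_zero] at e2
    rw [e1, eq_neg_iff_add_eq_zero, ← Finset.sum_add_distrib, ← e2]
    apply Finset.sum_congr rfl
    intro l _
    rw [h.leib]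
  have hsym : (Q * M).transpose = Q * M := by
    ext1 a i
    rw [Matrix.transpose_apply, hQM, hQM, neg_inj]
    have e3 := hsum (br (MvPolynomial.X i) (MvPolynomial.X a))
    have e4 : ∀ l, S l (br (MvPolynomial.X i) (MvPolynomial.X a))
        = br (MvPolynomial.X i) (S l (MvPolynomial.X a))
          - br (MvPolynomial.X a) (S l (MvPolynomial.X i)) := by
      intro l
      have e5 := congrArg (fun U : Module.End k _ => U (MvPolynomial.X a))
        ((hS l).pois h (MvPolynomial.X i))
      simp only [LinearMap.sub_apply, Module.End.mul_apply] at e5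
      rw [h.skew (MvPolynomial.X a) (S l (MvPolynomial.X i)), ← e5]
      ring
    simp only [e4, mul_sub, Finset.sum_sub_distrib] at e3
    exact sub_eq_zero.mp e3
  have hMM : M * M = W * Q := by
    ext1 j i
    have e1 : (M * M) j i = ∑ l, MvPolynomial.pderiv j (g l) *
        ∑ l', S l (g l') * S l' (MvPolynomial.X i) := by
      calc (M * M) j i = ∑ a, ∑ l, ∑ l', (MvPolynomial.pderiv j (g l) * S l (MvPolynomial.X a)) *
            (MvPolynomial.pderiv a (g l') * S l' (MvPolynomial.X i)) := by
            rw [Matrix.mul_apply]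
            simp only [M, Matrix.of_apply, Finset.sum_mul_sum]
        _ = ∑ l, ∑ a, ∑ l', (MvPolynomial.pderiv j (g l) * S l (MvPolynomial.X a)) *
            (MvPolynomial.pderiv a (g l') * S l' (MvPolynomial.X i)) := Finset.sum_comm
        _ = ∑ l, ∑ l', ∑ a, (MvPolynomial.pderiv j (g l) * S l (MvPolynomial.X a)) *
            (MvPolynomial.pderiv a (g l') * S l' (MvPolynomial.X i)) :=
            Finset.sum_congr rfl (fun l _ => Finset.sum_comm)
        _ = _ := by
            apply Finset.sum_congr rfl
            intro l _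
            rw [Finset.mul_sum]
            apply Finset.sum_congr rfl
            intro l' _
            rw [((hS l).der h).formula (g l'), Finset.sum_mul, Finset.mul_sum]
            apply Finset.sum_congr rfl
            intro a _
            ring
    have e2 : ∀ l, ∑ l', S l (g l') * S l' (MvPolynomial.X i)
        = -∑ l', g l' * br (c l l') (MvPolynomial.X i) := by
      intro l
      have h1 := congrArg (S l) (hsum (MvPolynomial.X i))
      rw [map_sum, map_zero] at h1
      have h2 := hsum (S l (MvPolynomial.X i))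
      rw [eq_neg_iff_add_eq_zero, ← Finset.sum_add_distrib]
      have h4 : ∑ l', (S l (g l' * S l' (MvPolynomial.X i))
          - g l' * S l' (S l (MvPolynomial.X i))) = 0 := by
        rw [Finset.sum_sub_distrib, h1, h2, sub_zero]
      rw [← h4]
      apply Finset.sum_congr rfl
      intro l' _
      have h3 := congrArg (fun U : Module.End k _ => U (MvPolynomial.X i)) (hc l l')
      simp only [LinearMap.sub_apply, Module.End.mul_apply] at h3
      rw [← h3, (hS l).der h]
      ring
    have e3 : ∀ l l', br (c l l') (MvPolynomial.X i)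
        = ∑ b, MvPolynomial.pderiv b (c l l') * br (MvPolynomial.X b) (MvPolynomial.X i) := by
      intro l l'
      rw [h.skew (c l l') (MvPolynomial.X i), (h.der (MvPolynomial.X i)).formula (c l l'),
        ← Finset.sum_neg_distrib]
      apply Finset.sum_congr rfl
      intro b _
      rw [h.skew (MvPolynomial.X b) (MvPolynomial.X i)]
      ring
    rw [e1, Matrix.mul_apply]
    simp only [e2, e3, W, Q, Matrix.of_apply, Finset.mul_sum, Finset.sum_mul, neg_mul, mul_neg,
      Finset.sum_neg_distrib]
    congr 1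
    calc ∑ l, ∑ l', ∑ b, MvPolynomial.pderiv j (g l) * (g l' *
          (MvPolynomial.pderiv b (c l l') * br (MvPolynomial.X b) (MvPolynomial.X i)))
        = ∑ l, ∑ b, ∑ l', MvPolynomial.pderiv j (g l) * (g l' *
          (MvPolynomial.pderiv b (c l l') * br (MvPolynomial.X b) (MvPolynomial.X i))) :=
          Finset.sum_congr rfl (fun l _ => Finset.sum_comm)
      _ = ∑ b, ∑ l, ∑ l', MvPolynomial.pderiv j (g l) * (g l' *
          (MvPolynomial.pderiv b (c l l') * br (MvPolynomial.X b) (MvPolynomial.X i))) :=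
          Finset.sum_comm
      _ = _ := by
          apply Finset.sum_congr rfl
          intro b _
          apply Finset.sum_congr rfl
          intro l _
          apply Finset.sum_congr rfl
          intro l' _
          ring
  have key : M.trace = 0 := by
    let K := FractionRing (MvPolynomial (Fin n) k)
    let φ : MvPolynomial (Fin n) k →+* K := algebraMap _ _
    have hφ : Function.Injective φ := IsFractionRing.injective _ _
    have := trace_zero (Q.map φ) (M.map φ) (W.map φ)
      (by rw [← Matrix.transpose_map, hQ]; ext1 i j; simp)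
      (by intro i; rw [Matrix.map_apply, hQ0, map_zero])
      (by rw [← Matrix.map_mul, ← Matrix.transpose_map, hsym])
      (by rw [← Matrix.map_mul, ← Matrix.map_mul, hMM])
    have h2 : φ M.trace = (M.map φ).trace := by
      simp [Matrix.trace]
    rw [this] at h2
    exact hφ (by rw [h2, map_zero])
  rw [← key, Matrix.trace]
  simp only [M, Matrix.diag_apply, Matrix.of_apply]
  rw [Finset.sum_comm]
  apply Finset.sum_congr rfl
  intro l _
  exact ((hS l).der h).formula (g l)

end Poisson

section Main

variable {k : Type*} [Field k] {p : ℕ} [hp : Fact p.Prime] [CharP k p] {n : ℕ}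
variable {br : MvPolynomial (Fin n) k →ₗ[k] MvPolynomial (Fin n) k →ₗ[k] MvPolynomial (Fin n) k}

/-- The derivation part of an operator. -/
noncomputable def dr (T : Module.End k (MvPolynomial (Fin n) k)) (f : MvPolynomial (Fin n) k) :
    MvPolynomial (Fin n) k := T f - f * T 1

/-- The left span of the operators `S + div S`. -/
noncomputable def EE (p : ℕ) (br : MvPolynomial (Fin n) k →ₗ[k] MvPolynomial (Fin n) k →ₗ[k]
    MvPolynomial (Fin n) k) : Submodule (MvPolynomial (Fin n) k)
      (Module.End k (MvPolynomial (Fin n) k)) :=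
  Submodule.span _ {T | ∃ S, SS p br S ∧ T = XX S}

theorem smul_eq (f : MvPolynomial (Fin n) k) (T : Module.End k (MvPolynomial (Fin n) k)) :
    f • T = LinearMap.mulLeft k f * T := rfl

omit hp [CharP k p] in
theorem EE_rep {T : Module.End k (MvPolynomial (Fin n) k)} (hT : T ∈ EE p br) :
    ∃ (N : ℕ) (S : Fin N → Module.End k (MvPolynomial (Fin n) k))
      (g : Fin N → MvPolynomial (Fin n) k), (∀ l, SS p br (S l)) ∧ T = ∑ l, g l • XX (S l) := by
  rw [EE, Submodule.mem_span_set'] at hT
  obtain ⟨N, g, v, hv⟩ := hT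
  choose S hS using fun l => (v l).2
  exact ⟨N, S, g, fun l => (hS l).1, by
    rw [← hv]
    exact Finset.sum_congr rfl (fun l _ => by rw [(hS l).2])⟩

theorem dr_XX {S : Module.End k (MvPolynomial (Fin n) k)} (hS : IsDer S)
    (f : MvPolynomial (Fin n) k) : dr (XX S) f = S f := by
  have h1 : S 1 = 0 := by
    have := hS 1 1
    simp only [mul_one, one_mul] at this
    simpa using this
  rw [dr, XX_apply, XX_apply, h1]
  ring

theorem dr_sum_smul {N : ℕ} (T : Fin N → Module.End k (MvPolynomial (Fin n) k))
    (g : Fin N → MvPolynomial (Fin n) k) (f : MvPolynomial (Fin n) k) :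
    dr (∑ l, g l • T l) f = ∑ l, g l * dr (T l) f := by
  simp only [dr, LinearMap.sum_apply, LinearMap.smul_apply, smul_eq_mul, Finset.mul_sum]
  rw [← Finset.sum_sub_distrib]
  apply Finset.sum_congr rfl
  intro l _
  ring

/-- An element of the span whose derivation part vanishes is zero. -/
theorem EE_zero (h : IsPB br) {T : Module.End k (MvPolynomial (Fin n) k)} (hT : T ∈ EE p br)
    (h0 : ∀ f, dr T f = 0) : T = 0 := by
  obtain ⟨N, S, g, hS, rfl⟩ := EE_rep hT
  have h1 : ∀ f, ∑ l, g l * S l f = 0 := by
    intro f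
    rw [← h0 f, dr_sum_smul]
    exact Finset.sum_congr rfl (fun l _ => by rw [dr_XX ((hS l).der h)])
  have h2 := star h S hS g h1
  have h3 : ∑ l, g l * dv (S l) = 0 := by
    have h4 : ∀ i : Fin n, MvPolynomial.pderiv i (∑ l, g l * S l (MvPolynomial.X i)) = 0 := by
      intro i; rw [h1, map_zero]
    have h5 : ∑ i : Fin n, MvPolynomial.pderiv i (∑ l, g l * S l (MvPolynomial.X i)) = 0 :=
      Finset.sum_eq_zero (fun i _ => h4 i)
    simp only [map_sum, Derivation.leibniz, smul_eq_mul, Finset.sum_add_distrib] at h5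
    have h6 : ∑ i : Fin n, ∑ l, S l (MvPolynomial.X i) * MvPolynomial.pderiv i (g l) = 0 := by
      rw [Finset.sum_comm, ← h2]
      apply Finset.sum_congr rfl
      intro l _
      rw [((hS l).der h).formula (g l)]
      exact Finset.sum_congr rfl (fun i _ => mul_comm _ _)
    rw [h6, add_zero, Finset.sum_comm] at h5
    rw [← h5]
    apply Finset.sum_congr rfl
    intro l _
    rw [dv, Finset.mul_sum]
  apply LinearMap.ext
  intro f
  have e : (∑ l, g l • XX (S l)) f = dr (∑ l, g l • XX (S l)) f + f * (∑ l, g l • XX (S l)) 1 := by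
    rw [dr]; ring
  have h1' : ∀ l, S l 1 = 0 := by
    intro l
    have := (hS l).der h 1 1
    simp only [mul_one, one_mul] at this
    simpa using this
  rw [e, h0, zero_add, LinearMap.sum_apply]
  simp only [LinearMap.smul_apply, XX_apply, h1', zero_add, mul_one, smul_eq_mul, h3, mul_zero,
    LinearMap.zero_apply]

theorem EE_com {T : Module.End k (MvPolynomial (Fin n) k)} (h : IsPB br) (hT : T ∈ EE p br)
    (f : MvPolynomial (Fin n) k) :
    T * LinearMap.mulLeft k f - LinearMap.mulLeft k f * T = LinearMap.mulLeft k (dr T f) := by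
  obtain ⟨N, S, g, hS, rfl⟩ := EE_rep hT
  apply LinearMap.ext
  intro u
  rw [dr_sum_smul]
  simp only [LinearMap.sub_apply, Module.End.mul_apply, LinearMap.mulLeft_apply,
    LinearMap.sum_apply, LinearMap.smul_apply, smul_eq_mul, Finset.mul_sum, Finset.sum_mul]
  rw [← Finset.sum_sub_distrib]
  apply Finset.sum_congr rfl
  intro l _
  have h1 := congrArg (fun U : Module.End k _ => U u) (((hS l).der h).com_XX f)
  simp only [LinearMap.sub_apply, Module.End.mul_apply, LinearMap.mulLeft_apply] at h1
  rw [dr_XX ((hS l).der h), mul_assoc, ← h1]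
  ring

theorem EE_der (h : IsPB br) {T : Module.End k (MvPolynomial (Fin n) k)} (hT : T ∈ EE p br) :
    ∀ f g, dr T (f * g) = dr T f * g + f * dr T g := by
  intro f g
  have h1 := congrArg (fun U : Module.End k _ => U g) (EE_com h hT f)
  simp only [LinearMap.sub_apply, Module.End.mul_apply, LinearMap.mulLeft_apply] at h1
  rw [← h1, dr, dr]
  ring

theorem EE_smul_com (h : IsPB br) {T : Module.End k (MvPolynomial (Fin n) k)} (hT : T ∈ EE p br)
    (f : MvPolynomial (Fin n) k) (U : Module.End k (MvPolynomial (Fin n) k)) :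
    T * (f • U) = f • (T * U) + dr T f • U := by
  have h1 := EE_com h hT f
  rw [smul_eq, smul_eq, smul_eq, ← h1, sub_mul, mul_assoc, mul_assoc]
  abel

theorem EE_lie (h : IsPB br) {T U : Module.End k (MvPolynomial (Fin n) k)} (hT : T ∈ EE p br)
    (hU : U ∈ EE p br) : T * U - U * T ∈ EE p br := by
  have hgen : ∀ S, SS p br S → XX S ∈ EE p br := fun S hS => Submodule.subset_span ⟨S, hS, rfl⟩
  -- first against a generator
  have step1 : ∀ S, SS p br S → ∀ U ∈ EE p br, XX S * U - U * XX S ∈ EE p br := by
    intro S hS U hU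
    induction hU using Submodule.span_induction with
    | mem x hx =>
      obtain ⟨S', hS', rfl⟩ := hx
      rw [(hS.der h).XX_lie (p := p) (hS'.der h)]
      obtain ⟨c, hc⟩ := SS.lie h hS hS'
      rw [hc]
      exact hgen _ (SS.ham c)
    | zero => simp
    | add x y hx hy h1 h2 =>
      have : XX S * (x + y) - (x + y) * XX S = (XX S * x - x * XX S) + (XX S * y - y * XX S) := by
        rw [mul_add, add_mul]; abel
      rw [this]
      exact Submodule.add_mem _ h1 h2
    | smul f x hx h1 =>
      have : XX S * (f • x) - (f • x) * XX S = f • (XX S * x - x * XX S) + dr (XX S) f • x := by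
        rw [EE_smul_com h (hgen S hS), smul_mul_assoc, smul_sub]; abel
      rw [this]
      exact Submodule.add_mem _ (Submodule.smul_mem _ _ h1) (Submodule.smul_mem _ _ hx)
  induction hT using Submodule.span_induction with
  | mem x hx =>
    obtain ⟨S', hS', rfl⟩ := hx
    exact step1 S' hS' U hU
  | zero => simp
  | add x y hx hy h1 h2 =>
    have : (x + y) * U - U * (x + y) = (x * U - U * x) + (y * U - U * y) := by
      rw [mul_add, add_mul]; abel
    rw [this]
    exact Submodule.add_mem _ h1 h2
  | smul f x hx h1 =>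
    have : (f • x) * U - U * (f • x) = f • (x * U - U * x) - dr U f • x := by
      rw [EE_smul_com h hU, smul_mul_assoc, smul_sub]; abel
    rw [this]
    exact Submodule.sub_mem _ (Submodule.smul_mem _ _ h1) (Submodule.smul_mem _ _ hx)

theorem EE_pow (h : IsPB br) {T : Module.End k (MvPolynomial (Fin n) k)} (hT : T ∈ EE p br) :
    T ^ p ∈ EE p br := by
  let LL : Submodule k (Module.End k (MvPolynomial (Fin n) k)) :=
    (EE p br).restrictScalars k
  have hL : ∀ x ∈ LL, ∀ y ∈ LL, x * y - y * x ∈ LL := fun x hx y hy => EE_lie h hx hy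
  suffices T ∈ EE p br ∧ T ^ p ∈ EE p br from this.2
  induction hT using Submodule.span_induction with
  | mem x hx =>
    obtain ⟨S, hS, rfl⟩ := hx
    refine ⟨Submodule.subset_span ⟨S, hS, rfl⟩, ?_⟩
    rw [(hS.der h).XX_pow]
    exact Submodule.subset_span ⟨S ^ p, hS.pow, rfl⟩
  | zero =>
    refine ⟨Submodule.zero_mem _, ?_⟩
    rw [zero_pow hp.out.ne_zero]
    exact Submodule.zero_mem _
  | add x y hx hy h1 h2 =>
    refine ⟨Submodule.add_mem _ h1.1 h2.1, ?_⟩
    exact add_pow_mem (p := p) LL hL h1.1 h2.1 h1.2 h2.2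
  | smul f x hx h1 =>
    refine ⟨Submodule.smul_mem _ _ h1.1, ?_⟩
    rw [smul_eq]
    exact mul_pow_mem (p := p) LL hL (c := LinearMap.mulLeft k f) (x := x)
      (fun y hy => by rw [← smul_eq]; exact Submodule.smul_mem (EE p br) f hy) h1.1 h1.2


/-- The derivation part as a linear map. -/
noncomputable def drE (T : Module.End k (MvPolynomial (Fin n) k)) :
    Module.End k (MvPolynomial (Fin n) k) := T - LinearMap.mulLeft k (T 1)

theorem drE_apply (T : Module.End k (MvPolynomial (Fin n) k)) (f : MvPolynomial (Fin n) k) :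
    drE T f = dr T f := by
  simp only [drE, dr, LinearMap.sub_apply, LinearMap.mulLeft_apply, mul_comm]

theorem drE_der (h : IsPB br) {T : Module.End k (MvPolynomial (Fin n) k)} (hT : T ∈ EE p br) :
    IsDer (drE T) := by
  intro f g
  simp only [drE_apply]
  exact EE_der h hT f g

theorem dr_smul (g : MvPolynomial (Fin n) k) (T : Module.End k (MvPolynomial (Fin n) k))
    (f : MvPolynomial (Fin n) k) : dr (g • T) f = g * dr T f := by
  simp only [dr, LinearMap.smul_apply, smul_eq_mul]
  ring

theorem dr_sub (T U : Module.End k (MvPolynomial (Fin n) k))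
    (f : MvPolynomial (Fin n) k) : dr (T - U) f = dr T f - dr U f := by
  simp only [dr, LinearMap.sub_apply]
  ring

theorem dr_zero_right (T : Module.End k (MvPolynomial (Fin n) k)) : dr T 0 = 0 := by
  simp [dr]

omit hp in
theorem der_pow {S : Module.End k (MvPolynomial (Fin n) k)} (hS : IsDer S)
    (f : MvPolynomial (Fin n) k) : S (f ^ p) = 0 := by
  have h1 : S 1 = 0 := by
    have := hS 1 1
    simp only [mul_one, one_mul] at this
    simpa using this
  have key : ∀ m : ℕ, S (f ^ (m + 1)) = ((m + 1 : ℕ) : MvPolynomial (Fin n) k) * f ^ m * S f := by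
    intro m
    induction m with
    | zero => simp
    | succ m ih =>
      rw [pow_succ, hS, ih]
      push_cast
      ring
  rcases Nat.eq_zero_or_pos p with h0 | h0
  · rw [h0, pow_zero, h1]
  · obtain ⟨q, hq⟩ : ∃ q, p = q + 1 := ⟨p - 1, by omega⟩
    have hc : ((q + 1 : ℕ) : MvPolynomial (Fin n) k) = 0 := by
      rw [← hq, ← map_natCast (MvPolynomial.C : k →+* MvPolynomial (Fin n) k),
        CharP.cast_eq_zero k p, map_zero]
    rw [hq, key, hc]
    ring

theorem dr_lie (h : IsPB br) {T U : Module.End k (MvPolynomial (Fin n) k)} (hT : T ∈ EE p br)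
    (hU : U ∈ EE p br) (f : MvPolynomial (Fin n) k) :
    dr (T * U - U * T) f = dr T (dr U f) - dr U (dr T f) := by
  have h1 := EE_com h (EE_lie h hT hU) f
  rw [ring_jac, EE_com h hU, EE_com h hT, EE_com h hT, EE_com h hU] at h1
  have h2 := congrArg (fun V : Module.End k _ => V 1) h1
  simp only [LinearMap.sub_apply, LinearMap.mulLeft_apply, mul_one] at h2
  exact h2.symm

theorem dr_pow (h : IsPB br) {T : Module.End k (MvPolynomial (Fin n) k)} (hT : T ∈ EE p br)
    (f : MvPolynomial (Fin n) k) : dr (T ^ p) f = (drE T ^ p) f := by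
  have h1 := com_pow (p := p) (T := T) (D := drE T)
    (fun f => by rw [drE_apply]; exact EE_com h hT f) f
  rw [EE_com h (EE_pow h hT)] at h1
  have h2 := congrArg (fun V : Module.End k _ => V 1) h1
  simpa only [LinearMap.mulLeft_apply, mul_one] using h2

/-- Families in the span with a dual family of functions. -/
def QQ (p : ℕ) (br : MvPolynomial (Fin n) k →ₗ[k] MvPolynomial (Fin n) k →ₗ[k]
    MvPolynomial (Fin n) k) (m : ℕ) : Prop :=
  ∃ (Y : Fin m → Module.End k (MvPolynomial (Fin n) k)) (u : Fin m → MvPolynomial (Fin n) k)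
    (d : MvPolynomial (Fin n) k), d ≠ 0 ∧ (∀ i, Y i ∈ EE p br) ∧
      ∀ i j, dr (Y i) (u j) = if i = j then d else 0

theorem QQ_le (h : IsPB br) (m : ℕ) (hm : QQ p br m) : m ≤ n := by
  obtain ⟨Y, u, d, hd, hY, hu⟩ := hm
  have hli : LinearIndependent (MvPolynomial (Fin n) k)
      (fun i : Fin m => fun l : Fin n => dr (Y i) (MvPolynomial.X l)) := by
    rw [Fintype.linearIndependent_iff]
    intro c hc j
    have h1 : ∀ f, ∑ i, c i * dr (Y i) f = 0 := by
      intro f
      have : ∀ i, dr (Y i) f = ∑ l, MvPolynomial.pderiv l f * dr (Y i) (MvPolynomial.X l) := by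
        intro i
        have := (drE_der h (hY i)).formula f
        simpa only [drE_apply] using this
      simp only [this, Finset.mul_sum]
      rw [Finset.sum_comm]
      apply Finset.sum_eq_zero
      intro l _
      have h2 := congrFun hc l
      simp only [Finset.sum_apply, Pi.smul_apply, smul_eq_mul, Pi.zero_apply] at h2
      have h3 : ∑ i, c i * (MvPolynomial.pderiv l f * dr (Y i) (MvPolynomial.X l))
          = MvPolynomial.pderiv l f * ∑ i, c i * dr (Y i) (MvPolynomial.X l) := by
        rw [Finset.mul_sum]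
        exact Finset.sum_congr rfl (fun i _ => by ring)
      rw [h3, h2, mul_zero]
    have h4 := h1 (u j)
    simp only [hu] at h4
    simp at h4
    exact h4.resolve_right hd
  have := hli.fintype_card_le_finrank
  simpa using this

theorem QQ_succ (h : IsPB br) {m : ℕ} (Y : Fin m → Module.End k (MvPolynomial (Fin n) k))
    (u : Fin m → MvPolynomial (Fin n) k)
    (d : MvPolynomial (Fin n) k) (hd : d ≠ 0) (hY : ∀ i, Y i ∈ EE p br)
    (hu : ∀ i j, dr (Y i) (u j) = if i = j then d else 0)
    (T : Module.End k (MvPolynomial (Fin n) k)) (hT : T ∈ EE p br) (hT0 : ∀ j, dr T (u j) = 0)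
    (hne : T ≠ 0) : QQ p br (m + 1) := by
  obtain ⟨f, hf⟩ : ∃ f, dr T f ≠ 0 := by
    by_contra hcon
    push Not at hcon
    exact hne (EE_zero h hT hcon)
  refine ⟨Fin.cons (d • T) (fun i => dr T f • Y i - dr (Y i) f • T), Fin.cons f u, d * dr T f,
    mul_ne_zero hd hf, ?_, ?_⟩
  · intro i
    refine Fin.cases ?_ (fun i => ?_) i
    · exact Submodule.smul_mem _ _ hT
    · exact Submodule.sub_mem _ (Submodule.smul_mem _ _ (hY i)) (Submodule.smul_mem _ _ hT)
  · intro i j
    refine Fin.cases ?_ (fun i => ?_) i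
    · refine Fin.cases ?_ (fun j => ?_) j
      · simp [dr_smul]
      · simp only [Fin.cons_zero, Fin.cons_succ, dr_smul, hT0, mul_zero]
        rw [if_neg (Fin.succ_ne_zero j).symm]
    · refine Fin.cases ?_ (fun j => ?_) j
      · simp only [Fin.cons_zero, Fin.cons_succ, dr_smul, dr_sub]
        rw [if_neg (Fin.succ_ne_zero i)]
        ring
      · simp only [Fin.cons_succ, dr_smul, dr_sub, hT0, mul_zero, sub_zero, hu, Fin.succ_inj]
        split_ifs
        · ring
        · ring

theorem common_kernel {V : Type*} [AddCommGroup V] [Module k V] [Nontrivial V] {m : ℕ}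
    (Y : Fin m → Module.End k V) (hc : ∀ i j, Y i * Y j = Y j * Y i) (N : ℕ)
    (hn : ∀ i, Y i ^ N = 0) : ∃ v : V, v ≠ 0 ∧ ∀ i, Y i v = 0 := by
  classical
  suffices ∀ s : Finset (Fin m), ∃ v : V, v ≠ 0 ∧ ∀ i ∈ s, Y i v = 0 by
    obtain ⟨v, hv, h⟩ := this Finset.univ
    exact ⟨v, hv, fun i => h i (Finset.mem_univ _)⟩
  intro s
  induction s using Finset.induction_on with
  | empty =>
    obtain ⟨v, hv⟩ := exists_ne (0 : V)
    exact ⟨v, hv, by simp⟩
  | insert i s _ ih =>
    obtain ⟨v, hv, hs⟩ := ih
    have hex : ∃ e, (Y i ^ e) v = 0 := ⟨N, by rw [hn]; rfl⟩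
    have h1 := Nat.find_spec hex
    have h0 : Nat.find hex ≠ 0 := by
      intro h
      rw [h] at h1
      exact hv h1
    obtain ⟨e, he⟩ := Nat.exists_eq_succ_of_ne_zero h0
    refine ⟨(Y i ^ e) v, ?_, ?_⟩
    · exact Nat.find_min hex (by omega)
    · intro j hj
      rw [Finset.mem_insert] at hj
      rcases hj with rfl | hj
      · rw [he, pow_succ'] at h1
        exact h1
      · have h2 : Y j * Y i ^ e = Y i ^ e * Y j :=
          (Commute.pow_right (show Commute (Y j) (Y i) from hc j i) e).eq
        have h3 := congrArg (fun U : Module.End k V => U v) h2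
        simp only [Module.End.mul_apply] at h3
        rw [h3, hs j hj, map_zero]

theorem exists_kernel (h : IsPB br) :
    ∃ w : MvPolynomial (Fin n) k, w ≠ 0 ∧ ∀ T ∈ EE p br, T w = 0 := by
  obtain ⟨m, hm, hmax⟩ : ∃ m, QQ p br m ∧ ¬ QQ p br (m + 1) := by
    by_contra hcon
    push Not at hcon
    have h0 : QQ p br 0 := ⟨Fin.elim0, Fin.elim0, 1, one_ne_zero, fun i => i.elim0,
      fun i => i.elim0⟩
    have hall : ∀ m, QQ p br m := by
      intro m
      induction m with
      | zero => exact h0
      | succ m ih => exact hcon m ih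
    have := QQ_le h (n + 1) (hall (n + 1))
    omega
  obtain ⟨Z, u, d, hd, hZ, hu⟩ := hm
  have hzero : ∀ T ∈ EE p br, (∀ j, dr T (u j) = 0) → T = 0 := by
    intro T hT hT0
    by_contra hne
    exact hmax (QQ_succ h Z u d hd hZ hu T hT hT0 hne)
  obtain ⟨q, hq⟩ : ∃ q, p = q + 1 := ⟨p - 1, by have := hp.out.one_le; omega⟩
  have hq1 : 1 ≤ q := by have := hp.out.two_le; omega
  let Y : Fin m → Module.End k (MvPolynomial (Fin n) k) := fun i => d ^ q • Z i
  have hY : ∀ i, Y i ∈ EE p br := fun i => Submodule.smul_mem _ _ (hZ i)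
  have hYu : ∀ i j, dr (Y i) (u j) = if i = j then d ^ p else 0 := by
    intro i j
    simp only [Y, dr_smul, hu]
    split_ifs
    · rw [hq, pow_succ]
    · rw [mul_zero]
  have hdp : ∀ T ∈ EE p br, dr T (d ^ p) = 0 := by
    intro T hT
    rw [← drE_apply]
    exact der_pow (drE_der h hT) d
  have hcomm : ∀ i j, Y i * Y j = Y j * Y i := by
    intro i j
    rw [← sub_eq_zero]
    apply hzero _ (EE_lie h (hY i) (hY j))
    intro l
    rw [dr_lie h (hY i) (hY j), hYu, hYu]
    split_ifs <;> simp [hdp _ (hY i), hdp _ (hY j), dr_zero_right]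
  have hnil : ∀ i, Y i ^ p = 0 := by
    intro i
    apply hzero _ (EE_pow h (hY i))
    intro l
    rw [dr_pow h (hY i)]
    obtain ⟨r, hr⟩ : ∃ r, q = r + 1 := ⟨q - 1, by omega⟩
    have e1 : (drE (Y i) ^ p) (u l) = (drE (Y i) ^ r) (drE (Y i) (drE (Y i) (u l))) := by
      rw [hq, hr, pow_succ, pow_succ]
      rfl
    rw [e1, drE_apply (Y i) (u l), hYu, drE_apply]
    split_ifs
    · rw [hdp _ (hY i), map_zero]
    · rw [dr_zero_right, map_zero]
  obtain ⟨w, hw, hker⟩ := common_kernel Y hcomm p hnil
  refine ⟨w, hw, ?_⟩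
  intro T hT
  have h1 : d ^ p • T - ∑ j, dr T (u j) • Y j ∈ EE p br :=
    Submodule.sub_mem _ (Submodule.smul_mem _ _ hT)
      (Submodule.sum_mem _ (fun j _ => Submodule.smul_mem _ _ (hY j)))
  have h2 := hzero _ h1 (by
    intro l
    rw [dr_sub, dr_smul, dr_sum_smul]
    simp only [hYu]
    simp [mul_comm])
  have h3 := congrArg (fun U : Module.End k _ => U w) h2
  simp only [LinearMap.sub_apply, LinearMap.smul_apply, LinearMap.sum_apply, hker, smul_eq_mul,
    mul_zero, Finset.sum_const_zero, sub_zero, LinearMap.zero_apply] at h3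
  exact (mul_eq_zero.mp h3).resolve_left (pow_ne_zero p hd)

theorem exists_omega (p : ℕ) [Fact p.Prime] [CharP k p] (h : IsPB br) : ∃ w : MvPolynomial (Fin n) k, w ≠ 0 ∧
    ∀ a, br a w = (∑ j, MvPolynomial.pderiv j (br (MvPolynomial.X j) a)) * w := by
  obtain ⟨w, hw, hker⟩ := exists_kernel (p := p) h
  refine ⟨w, hw, ?_⟩
  intro a
  have h1 := hker _ (Submodule.subset_span ⟨br a, SS.ham a, rfl⟩)
  rw [XX_apply, dv] at h1
  have h2 : ∑ j, MvPolynomial.pderiv j (br (MvPolynomial.X j) a)
      = -∑ j, MvPolynomial.pderiv j (br a (MvPolynomial.X j)) := by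
    rw [← Finset.sum_neg_distrib]
    apply Finset.sum_congr rfl
    intro j _
    rw [h.skew (MvPolynomial.X j) a, map_neg]
  rw [h2, neg_mul]
  exact eq_neg_of_add_eq_zero_left h1

end Main

section Statement

/-- A Poisson bracket on the polynomial ring `k[x_1, ..., x_n]`: a `k`-bilinear bracket which is a
Lie bracket and is a derivation in the second argument. -/
structure PoissonStructure (k : Type*) [Field k] (n : ℕ) where
  /-- the bracket -/
  bracket : MvPolynomial (Fin n) k →ₗ[k] MvPolynomial (Fin n) k →ₗ[k] MvPolynomial (Fin n) k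
  /-- the bracket is alternating -/
  alt : ∀ a, bracket a a = 0
  /-- the Jacobi identity -/
  jacobi : ∀ a b c, bracket a (bracket b c) + bracket b (bracket c a) + bracket c (bracket a b) = 0
  /-- the Leibniz rule -/
  leibniz : ∀ a b c, bracket a (b * c) = bracket a b * c + b * bracket a c

variable {k : Type*} [Field k] {n : ℕ}

theorem PoissonStructure.isPB (B : PoissonStructure k n) : IsPB B.bracket :=
  ⟨B.alt, B.jacobi, B.leibniz⟩

theorem PoissonStructure.modular_leibniz (B : PoissonStructure k n)
    (f g : MvPolynomial (Fin n) k) :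
    (∑ j : Fin n, (MvPolynomial.pderiv j).toLinearMap ∘ₗ B.bracket (MvPolynomial.X j)) (f * g)
      = f • (∑ j : Fin n, (MvPolynomial.pderiv j).toLinearMap ∘ₗ B.bracket (MvPolynomial.X j)) g
        + g • (∑ j : Fin n,
          (MvPolynomial.pderiv j).toLinearMap ∘ₗ B.bracket (MvPolynomial.X j)) f := by
  have hb := B.isPB
  have h1 : ∑ j, MvPolynomial.pderiv j g * B.bracket (MvPolynomial.X j) f
      = B.bracket g f := by
    rw [hb.skew g f, (hb.der f).formula g, ← Finset.sum_neg_distrib]
    apply Finset.sum_congr rfl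
    intro j _
    rw [hb.skew (MvPolynomial.X j) f]
    ring
  have h2 : ∑ j, MvPolynomial.pderiv j f * B.bracket (MvPolynomial.X j) g
      = B.bracket f g := by
    rw [hb.skew f g, (hb.der g).formula f, ← Finset.sum_neg_distrib]
    apply Finset.sum_congr rfl
    intro j _
    rw [hb.skew (MvPolynomial.X j) g]
    ring
  have h3 := hb.skew g f
  simp only [LinearMap.sum_apply, LinearMap.comp_apply, smul_eq_mul, Finset.mul_sum]
  have h4 : ∀ j : Fin n, (MvPolynomial.pderiv j).toLinearMap
        (B.bracket (MvPolynomial.X j) (f * g))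
      = (f * (MvPolynomial.pderiv j).toLinearMap (B.bracket (MvPolynomial.X j) g)
        + g * (MvPolynomial.pderiv j).toLinearMap (B.bracket (MvPolynomial.X j) f))
        + (MvPolynomial.pderiv j g * B.bracket (MvPolynomial.X j) f
          + MvPolynomial.pderiv j f * B.bracket (MvPolynomial.X j) g) := by
    intro j
    change MvPolynomial.pderiv j (B.bracket (MvPolynomial.X j) (f * g)) = (f *
      MvPolynomial.pderiv j (B.bracket (MvPolynomial.X j) g)
      + g * MvPolynomial.pderiv j (B.bracket (MvPolynomial.X j) f)) + _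
    rw [B.leibniz, map_add, Derivation.leibniz, Derivation.leibniz]
    simp only [smul_eq_mul]
    ring
  rw [Finset.sum_congr rfl (fun j _ => h4 j), Finset.sum_add_distrib, Finset.sum_add_distrib,
    Finset.sum_add_distrib, h1, h2, h3]
  ring

/-- The modular derivation `f ↦ ∑ j, ∂/∂x_j {x_j, f}`. -/
noncomputable def PoissonStructure.modular (B : PoissonStructure k n) :
    Derivation k (MvPolynomial (Fin n) k) (MvPolynomial (Fin n) k) :=
  Derivation.mk'
    (∑ j : Fin n, (MvPolynomial.pderiv j).toLinearMap ∘ₗ B.bracket (MvPolynomial.X j))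
    B.modular_leibniz

theorem PoissonStructure.modular_apply (B : PoissonStructure k n) (f : MvPolynomial (Fin n) k) :
    B.modular f = ∑ j, MvPolynomial.pderiv j (B.bracket (MvPolynomial.X j) f) := by
  simp only [PoissonStructure.modular, Derivation.coe_mk', LinearMap.sum_apply,
    LinearMap.comp_apply]
  rfl

/-- `f` is Poisson normal: it is nonzero and `{a, f}` lies in `f P` for all `a`. -/
def PoissonStructure.IsNormal (B : PoissonStructure k n) (f : MvPolynomial (Fin n) k) : Prop :=
  f ≠ 0 ∧ ∀ a, f ∣ B.bracket a f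

/-- The log-ozone group: the additive subgroup of the derivations of `P` generated by the
derivations `δ_f : a ↦ f⁻¹ {a, f}`, where `f` runs over the Poisson normal elements. -/
noncomputable def PoissonStructure.loz (B : PoissonStructure k n) :
    AddSubgroup (Derivation k (MvPolynomial (Fin n) k) (MvPolynomial (Fin n) k)) :=
  AddSubgroup.closure {δ | ∃ f, B.IsNormal f ∧ ∀ a, f * δ a = B.bracket a f}

/-- In characteristic `p > 0`, the modular derivation of every polynomial Poisson algebra is a
log-ozone derivation `δ_Ω` of a single Poisson normal polynomial `Ω`; in particular it belongs to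
the log-ozone group. -/
theorem result {k : Type*} [Field k] (p : ℕ) [Fact p.Prime] [CharP k p] (n : ℕ)
    (B : PoissonStructure k n) :
    B.modular ∈ B.loz ∧ ∃ Ω, B.IsNormal Ω ∧ ∀ a, Ω * B.modular a = B.bracket a Ω := by
  obtain ⟨w, hw, h⟩ := exists_omega p B.isPB
  have h1 : ∀ a, w * B.modular a = B.bracket a w := by
    intro a
    rw [h a, B.modular_apply, mul_comm]
  have h2 : B.IsNormal w := ⟨hw, fun a => ⟨B.modular a, (h1 a).symm⟩⟩
  exact ⟨AddSubgroup.subset_closure ⟨w, h2, h1⟩, w, h2, h1⟩

end Statement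

end Pool.Agent.Results.MP_c5669f_al.ModularDerivation
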